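import Pool.Agent.Q312.Mak.Sound

/-!
# MP_d84959_lc: the acceptable formulae have the letter-sharing property

The truth-trees with parity are defined in `Pool/Agent/Q312/Mak/Basic.lean`.
-/

namespace Pool.Agent.Results.MP_d84959_lc.LetterSharing

open Pool.Agent.Q312.Mak

/-- **Theorem.** If `φ → ψ` is acceptable, then `φ` and `ψ` have a sentence letter in common. -/
theorem result (φ ψ : Form) (h : Acceptable (.imp φ ψ)) : ∃ p, p ∈ φ.letters ∧ p ∈ ψ.letters :=
  letter_sharing φ ψ h

end Pool.Agent.Results.MP_d84959_lc.LetterSharing
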